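import Pool.Agent.N762.UA.Va

/-!
Fundamental groups of smooth projective varieties with unirational function field.
-/

set_option autoImplicit false
set_option linter.unusedVariables false
set_option linter.unusedSimpArgs false
set_option linter.unusedSectionVars false

open Topology Set Pool.Agent.Y193.FG Pool.Agent.Y193.CS

namespace Pool.Agent.N762.UA

/-- **Unirational varieties.** -/
theorem va_of_field {N m : ℕ} {X : Set (CP N)} {ι : Type}
    {p : ι → MvPolynomial (Fin (N + 1)) ℂ} (hp : ∀ i, ∃ d, (p i).IsHomogeneous d)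
    (hX : X = Zeros p) (hs : IsSmooth X) (hc : IsConnected X) {L : Type} [Field L] [Algebra ℂ L]
    (x : Fin (N + 1) → L) (hx : x ≠ 0) (hxG : ∀ G : MvPolynomial (Fin (N + 1)) ℂ,
      (∃ d, G.IsHomogeneous d) → (MvPolynomial.aeval x G = 0 ↔
        ∀ (v : Fin (N + 1) → ℂ) (hv : v ≠ 0), CP.mk v hv ∈ X → MvPolynomial.eval v G = 0))
    (φ : L →ₐ[ℂ] FractionRing (MvPolynomial (Fin m) ℂ)) (P : X) :
    VirtuallyAbelian (FundamentalGroup X P) := by
  classical
  obtain rfl : X = QP p (one1 N) := hX.trans (zeros_eq p)
  let R := MvPolynomial (Fin m) ℂ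
  let K := FractionRing R
  obtain ⟨b, hb⟩ := IsLocalization.exist_integer_multiples (nonZeroDivisors R)
    (Finset.univ : Finset (Fin (N + 1))) (fun l => φ (x l))
  choose f hf using fun l => hb l (Finset.mem_univ l)
  have hb0 : algebraMap R K (b : R) ≠ 0 :=
    IsFractionRing.to_map_ne_zero_of_mem_nonZeroDivisors b.2
  have hf' : ∀ l, algebraMap R K (f l) = algebraMap R K (b : R) * φ (x l) := by
    intro l
    have h1 : algebraMap R K (f l) = (b : R) • φ (x l) := hf l
    rw [h1, Algebra.smul_def]
  let e : R →ₐ[ℂ] MvPolynomial (Fin (m + 1)) ℂ := MvPolynomial.rename Fin.castSucc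
  have he : Function.Injective e := MvPolynomial.rename_injective _ (Fin.castSucc_injective m)
  let g : Fin (N + 1) → MvPolynomial (Fin (m + 1)) ℂ := fun l => e (f l)
  have hinj : Function.Injective (algebraMap R K) := IsFractionRing.injective R K
  have key : ∀ (G : MvPolynomial (Fin (N + 1)) ℂ) (d : ℕ), G.IsHomogeneous d →
      (MvPolynomial.aeval g G = 0 ↔ MvPolynomial.aeval x G = 0) := by
    intro G d hG
    have h1 : MvPolynomial.aeval g G = e (MvPolynomial.aeval f G) :=
      (MvPolynomial.comp_aeval_apply (f := f) (φ := e) G).symm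
    have h2 : algebraMap R K (MvPolynomial.aeval f G) =
        MvPolynomial.aeval (fun l => algebraMap R K (f l)) G := by
      have := MvPolynomial.comp_aeval_apply (f := f) (φ := (Algebra.ofId R K).restrictScalars ℂ) G
      exact this
    have h3 : MvPolynomial.aeval (fun l => algebraMap R K (f l)) G =
        (algebraMap R K (b : R)) ^ d * φ (MvPolynomial.aeval x G) := by
      have h4 : (fun l => algebraMap R K (f l)) = fun l => algebraMap R K (b : R) * φ (x l) :=
        funext hf'
      rw [h4, aeval_mul_form hG]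
      congr 1
      exact (MvPolynomial.comp_aeval_apply (f := x) (φ := φ) G).symm
    rw [h1, map_eq_zero_iff e he, ← map_eq_zero_iff _ hinj, h2, h3, mul_eq_zero,
      map_eq_zero_iff φ φ.toRingHom.injective]
    constructor
    · intro h
      exact h.resolve_left (pow_ne_zero _ hb0)
    · exact Or.inr
  refine va_of_poly (m := m) hp hs hc g ?_ ?_ P
  · intro h
    apply hx
    funext l
    have h1 : e (f l) = 0 := congrFun h l
    have h2 : f l = 0 := (map_eq_zero_iff e he).1 h1
    have h3 := hf' l
    rw [h2, map_zero] at h3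
    have h4 := (mul_eq_zero.1 h3.symm).resolve_left hb0
    exact (map_eq_zero_iff φ φ.toRingHom.injective).1 h4
  · rintro G ⟨d, hG⟩
    rw [key G d hG]
    exact hxG G ⟨d, hG⟩

/-- Purely transcendental fields. -/
theorem exists_hom_of_basis {L : Type} [Field L] [Algebra ℂ L] {d : ℕ} (σ : Fin d → L)
    (hσ : AlgebraicIndependent ℂ σ) (htop : IntermediateField.adjoin ℂ (Set.range σ) = ⊤) :
    Nonempty (L →ₐ[ℂ] FractionRing (MvPolynomial (Fin d) ℂ)) := by
  have e1 := hσ.aevalEquivField.symm
  rw [htop] at e1
  exact ⟨e1.toAlgHom.comp (IntermediateField.topEquiv (F := ℂ) (E := L)).symm.toAlgHom⟩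

end Pool.Agent.N762.UA
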