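import Pool.Agent.Y193.CS.PMain

/-!
Fundamental groups of smooth projective varieties which are images of affine spaces.
-/

set_option autoImplicit false
set_option linter.unusedVariables false
set_option linter.unusedSimpArgs false
set_option linter.unusedSectionVars false

open Polynomial Topology Set Pool.Agent.Y193.FG Pool.Agent.Y193.CS

namespace Pool.Agent.N762.UA

/-- The closed algebraic subset `{p i = 0 for all i}` of `P^n`. -/
def Zeros {n : ℕ} {ι : Type} (p : ι → MvPolynomial (Fin (n + 1)) ℂ) : Set (CP n) :=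
  {P | ∀ (v : Fin (n + 1) → ℂ) (hv : v ≠ 0), CP.mk v hv = P → ∀ i, MvPolynomial.eval v (p i) = 0}

/-- The polynomial `1`. -/
noncomputable def one1 (n : ℕ) : Unit → MvPolynomial (Fin (n + 1)) ℂ := fun _ => 1

lemma zeros_eq {n : ℕ} {ι : Type} (p : ι → MvPolynomial (Fin (n + 1)) ℂ) :
    Zeros p = QP p (one1 n) := by
  ext P
  constructor
  · intro h v hv hP
    exact ⟨h v hv hP, (), by rw [one1, map_one]; exact one_ne_zero⟩
  · intro h v hv hP
    exact (h v hv hP).1

section line

variable {n m : ℕ}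

/-- The restriction of polynomials to the line through `t0` (parameter `1`) and `t1`
(parameter `2`). -/
noncomputable def res (t0 t1 : Fin m → ℂ) : MvPolynomial (Fin m) ℂ →ₐ[ℂ] ℂ[X] :=
  MvPolynomial.aeval fun j => C (t0 j) + (X - 1) * C (t1 j - t0 j)

lemma res_eval (t0 t1 : Fin m → ℂ) (P : MvPolynomial (Fin m) ℂ) (s : ℂ) :
    (res t0 t1 P).eval s = MvPolynomial.eval (fun j => t0 j + (s - 1) * (t1 j - t0 j)) P := by
  have h : ((Polynomial.evalRingHom s).comp (res t0 t1 : MvPolynomial (Fin m) ℂ →+* ℂ[X])) =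
      (MvPolynomial.eval (fun j => t0 j + (s - 1) * (t1 j - t0 j))) := by
    apply MvPolynomial.ringHom_ext
    · intro a
      rw [RingHom.comp_apply, MvPolynomial.eval_C]
      change Polynomial.eval s (MvPolynomial.aeval _ (MvPolynomial.C a)) = a
      rw [MvPolynomial.aeval_C]
      exact Polynomial.eval_C
    · intro j
      rw [RingHom.comp_apply, MvPolynomial.eval_X]
      change Polynomial.eval s (MvPolynomial.aeval _ (MvPolynomial.X j)) = _
      rw [MvPolynomial.aeval_X]
      simp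
  exact congrArg (fun g : MvPolynomial (Fin m) ℂ →+* ℂ => g P) h

lemma res_one (t0 t1 : Fin m → ℂ) (P : MvPolynomial (Fin m) ℂ) :
    (res t0 t1 P).eval 1 = MvPolynomial.eval t0 P := by
  rw [res_eval]
  congr 2
  funext j
  ring

lemma res_two (t0 t1 : Fin m → ℂ) (P : MvPolynomial (Fin m) ℂ) :
    (res t0 t1 P).eval 2 = MvPolynomial.eval t1 P := by
  rw [res_eval]
  congr 2
  funext j
  ring

/-- Common factors of polynomials in one variable. -/
lemma exists_coprime (h : Fin (n + 1) → ℂ[X]) (h0 : h ≠ 0) :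
    ∃ (D : ℂ[X]) (g a : Fin (n + 1) → ℂ[X]), D ≠ 0 ∧ (∀ l, h l = D * g l) ∧
      ∑ l, a l * g l = 1 := by
  classical
  obtain ⟨D, hD⟩ : ∃ D : ℂ[X], Ideal.span (Set.range h) = Ideal.span {D} :=
    (IsPrincipalIdealRing.principal (Ideal.span (Set.range h))).principal
  have hD0 : D ≠ 0 := by
    rintro rfl
    apply h0
    funext l
    have : h l ∈ Ideal.span (Set.range h) := Ideal.subset_span ⟨l, rfl⟩
    rw [hD, Ideal.mem_span_singleton, zero_dvd_iff] at this
    exact this
  have hg : ∀ l, ∃ g, h l = D * g := by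
    intro l
    have : h l ∈ Ideal.span (Set.range h) := Ideal.subset_span ⟨l, rfl⟩
    rw [hD, Ideal.mem_span_singleton] at this
    exact this
  choose g hg using hg
  have hDm : D ∈ Ideal.span (Set.range h) := by
    rw [hD]
    exact Ideal.mem_span_singleton_self D
  obtain ⟨a, ha⟩ := (Ideal.mem_span_range_iff_exists_fun).1 hDm
  refine ⟨D, g, a, hD0, hg, ?_⟩
  apply mul_left_cancel₀ hD0
  rw [mul_one, Finset.mul_sum]
  conv_rhs => rw [← ha]
  refine Finset.sum_congr rfl fun l _ => ?_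
  rw [hg l]
  ring

/-- Values of forms at multiples. -/
lemma aeval_mul_form {R : Type} [CommRing R] [Algebra ℂ R] {G : MvPolynomial (Fin (n + 1)) ℂ}
    {d : ℕ} (hG : G.IsHomogeneous d) (D : R) (g : Fin (n + 1) → R) :
    MvPolynomial.aeval (fun l => D * g l) G = D ^ d * MvPolynomial.aeval g G := by
  rw [MvPolynomial.aeval_def, MvPolynomial.aeval_def, MvPolynomial.eval₂_eq',
    MvPolynomial.eval₂_eq', Finset.mul_sum]
  refine Finset.sum_congr rfl fun e he => ?_
  have hd : ∑ i, e i = d := by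
    have h1 := hG (MvPolynomial.mem_support_iff.mp he)
    rw [← h1, Finsupp.weight_apply, Finsupp.sum_fintype]
    · simp
    · simp
  have h2 : ∀ i, (D * g i) ^ e i = D ^ e i * g i ^ e i := fun i => mul_pow _ _ _
  rw [Finset.prod_congr rfl (fun i _ => h2 i), Finset.prod_mul_distrib,
    Finset.prod_pow_eq_pow_sum, hd]
  ring

/-- Evaluation of polynomials at values. -/
lemma eval_aeval (t : Fin m → ℂ) (f : Fin (n + 1) → MvPolynomial (Fin m) ℂ)
    (G : MvPolynomial (Fin (n + 1)) ℂ) :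
    MvPolynomial.eval (fun l => MvPolynomial.eval t (f l)) G =
      MvPolynomial.eval t (MvPolynomial.aeval f G) := by
  have h : ((MvPolynomial.eval t).comp (MvPolynomial.aeval f :
      MvPolynomial (Fin (n + 1)) ℂ →ₐ[ℂ] MvPolynomial (Fin m) ℂ).toRingHom) =
      (MvPolynomial.eval (fun l => MvPolynomial.eval t (f l))) := by
    apply MvPolynomial.ringHom_ext
    · intro a
      rw [RingHom.comp_apply, MvPolynomial.eval_C]
      change MvPolynomial.eval t (MvPolynomial.aeval f (MvPolynomial.C a)) = a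
      rw [MvPolynomial.aeval_C]
      exact MvPolynomial.eval_C a
    · intro j
      rw [RingHom.comp_apply, MvPolynomial.eval_X]
      change MvPolynomial.eval t (MvPolynomial.aeval f (MvPolynomial.X j)) = _
      rw [MvPolynomial.aeval_X]
  exact (congrArg (fun g : MvPolynomial (Fin (n + 1)) ℂ →+* ℂ => g G) h).symm

/-- The same in one variable. -/
lemma eval_aeval1 (s : ℂ) (g : Fin (n + 1) → ℂ[X]) (G : MvPolynomial (Fin (n + 1)) ℂ) :
    MvPolynomial.eval (fun l => (g l).eval s) G = (MvPolynomial.aeval g G).eval s := by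
  have h : ((Polynomial.evalRingHom s).comp (MvPolynomial.aeval g :
      MvPolynomial (Fin (n + 1)) ℂ →ₐ[ℂ] ℂ[X]).toRingHom) =
      (MvPolynomial.eval (fun l => (g l).eval s)) := by
    apply MvPolynomial.ringHom_ext
    · intro a
      rw [RingHom.comp_apply, MvPolynomial.eval_C]
      change Polynomial.eval s (MvPolynomial.aeval g (MvPolynomial.C a)) = a
      rw [MvPolynomial.aeval_C]
      exact Polynomial.eval_C
    · intro j
      rw [RingHom.comp_apply, MvPolynomial.eval_X]
      change Polynomial.eval s (MvPolynomial.aeval g (MvPolynomial.X j)) = _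
      rw [MvPolynomial.aeval_X]
  exact (congrArg (fun g : MvPolynomial (Fin (n + 1)) ℂ →+* ℂ => g G) h).symm

end line

section main

variable {n m : ℕ} {ι : Type} {p : ι → MvPolynomial (Fin (n + 1)) ℂ}

/-- Two values are linked. -/
lemma linked (hp : ∀ i, ∃ d, (p i).IsHomogeneous d)
    (f : Fin (n + 1) → MvPolynomial (Fin m) ℂ) (hf : ∀ i, MvPolynomial.aeval f (p i) = 0)
    (t0 t1 : Fin m → ℂ) (h0 : (fun l => MvPolynomial.eval t0 (f l)) ≠ 0)
    (h1 : (fun l => MvPolynomial.eval t1 (f l)) ≠ 0) :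
    TorusLinked (QP p (one1 n)) (CP.mk _ h0) (CP.mk _ h1) := by
  classical
  let h : Fin (n + 1) → ℂ[X] := fun l => res t0 t1 (f l)
  have hh0 : h ≠ 0 := by
    intro hh
    apply h0
    funext l
    have := congrFun hh l
    change res t0 t1 (f l) = 0 at this
    rw [← res_one t0 t1, this]
    simp
  obtain ⟨D, g, a, hD0, hg, ha⟩ := exists_coprime h hh0
  have hgne : ∀ s : ℂ, (fun l => (g l).eval s) ≠ 0 := by
    intro s hs
    have h2 := congrArg (Polynomial.eval s) ha
    rw [Polynomial.eval_finsetSum, Polynomial.eval_one] at h2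
    rw [Finset.sum_eq_zero] at h2
    · exact zero_ne_one h2
    · intro l _
      rw [Polynomial.eval_mul, congrFun hs l]
      simp
  have hpg : ∀ i, MvPolynomial.aeval g (p i) = 0 := by
    intro i
    obtain ⟨d, hd⟩ := hp i
    have h2 : MvPolynomial.aeval h (p i) = D ^ d * MvPolynomial.aeval g (p i) := by
      rw [← aeval_mul_form hd]
      congr 1
      exact congrArg _ (funext hg)
    have h3 : MvPolynomial.aeval h (p i) = res t0 t1 (MvPolynomial.aeval f (p i)) := by
      have := MvPolynomial.comp_aeval_apply (f := f) (φ := res t0 t1) (p i)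
      exact this.symm
    rw [h3, hf i, map_zero] at h2
    exact (mul_eq_zero.1 h2.symm).resolve_left (pow_ne_zero _ hD0)
  have hmem : ∀ (s : ℂ), CP.mk _ (hgne s) ∈ QP p (one1 n) := by
    intro s v hv hP
    refine ⟨fun i => ?_, (), by rw [one1, map_one]; exact one_ne_zero⟩
    obtain ⟨c, hc, hvc⟩ := mk_eq_mk.1 hP
    obtain ⟨d, hd⟩ := hp i
    have h2 : MvPolynomial.eval v (p i) = c ^ d *
        MvPolynomial.eval (fun l => (g l).eval s) (p i) := by
      have h3 := aeval_mul_form (R := ℂ) hd c (fun l => (g l).eval s)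
      rw [hvc]
      exact h3
    rw [h2, eval_aeval1, hpg i, Polynomial.eval_zero, mul_zero]
  let φ : TT 1 → CP n := fun t => CP.mk _ (hgne (t.1 0))
  have e1 : ∀ (t : Fin m → ℂ) (ht : (fun l => MvPolynomial.eval t (f l)) ≠ 0) (s : ℂ),
      (∀ l, (h l).eval s = MvPolynomial.eval t (f l)) → CP.mk _ ht = CP.mk _ (hgne s) := by
    intro t ht s hs
    rw [mk_eq_mk]
    refine ⟨D.eval s, ?_, ?_⟩
    · intro hDs
      apply ht
      funext l
      rw [← hs l, hg l, Polynomial.eval_mul, hDs, zero_mul]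
      rfl
    · funext l
      rw [← hs l, hg l, Polynomial.eval_mul]
      rfl
  have hx0 : CP.mk _ h0 = φ ⟨fun _ => 1, fun _ => one_ne_zero⟩ :=
    e1 t0 h0 1 fun l => res_one t0 t1 (f l)
  have hx1 : CP.mk _ h1 = φ ⟨fun _ => 2, fun _ => two_ne_zero⟩ :=
    e1 t1 h1 2 fun l => res_two t0 t1 (f l)
  refine ⟨?_, ?_, 1, φ, ?_, fun t => hmem _, ?_, ?_⟩
  · rw [hx0]
    exact hmem _
  · rw [hx1]
    exact hmem _
  · refine ⟨fun l => Polynomial.aeval (MvPolynomial.X (Sum.inl 0)) (g l), fun t => ?_⟩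
    have h2 : (fun l => MvPolynomial.eval (Sum.elim t.1 (fun j => (t.1 j)⁻¹))
        (Polynomial.aeval (MvPolynomial.X (Sum.inl 0) : MvPolynomial (Fin 1 ⊕ Fin 1) ℂ) (g l))) =
        fun l => (g l).eval (t.1 0) := by
      funext l
      have h3 := Polynomial.hom_eval₂ (g l) (algebraMap ℂ (MvPolynomial (Fin 1 ⊕ Fin 1) ℂ))
        (MvPolynomial.eval (Sum.elim t.1 (fun j => (t.1 j)⁻¹))) (MvPolynomial.X (Sum.inl 0))
      have h4 : (MvPolynomial.eval (Sum.elim t.1 (fun j => (t.1 j)⁻¹))).comp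
          (algebraMap ℂ (MvPolynomial (Fin 1 ⊕ Fin 1) ℂ)) = RingHom.id ℂ :=
        RingHom.ext fun a => MvPolynomial.eval_C a
      rw [Polynomial.aeval_def, h3, MvPolynomial.eval_X, h4, Polynomial.eval₂_id]
      rfl
    refine ⟨by rw [h2]; exact hgne _, ?_⟩
    change CP.mk _ (hgne (t.1 0)) = _
    congr 1
    exact h2.symm
  · rw [hx0]
    intro G d hG hGS v hv hv'
    exact hGS v hv ⟨_, hv'.symm⟩
  · rw [hx1]
    intro G d hG hGS v hv hv'
    exact hGS v hv ⟨_, hv'.symm⟩

/-- **Images of affine spaces.** -/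
theorem va_of_poly (hp : ∀ i, ∃ d, (p i).IsHomogeneous d) (hs : IsSmooth (QP p (one1 n)))
    (hc : IsConnected (QP p (one1 n))) (f : Fin (n + 1) → MvPolynomial (Fin (m + 1)) ℂ)
    (hf0 : f ≠ 0) (hfG : ∀ G : MvPolynomial (Fin (n + 1)) ℂ, (∃ d, G.IsHomogeneous d) →
      (MvPolynomial.aeval f G = 0 ↔ ∀ (v : Fin (n + 1) → ℂ) (hv : v ≠ 0),
        CP.mk v hv ∈ QP p (one1 n) → MvPolynomial.eval v G = 0)) (x : QP p (one1 n)) :
    VirtuallyAbelian (FundamentalGroup (QP p (one1 n)) x) := by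
  classical
  have hf : ∀ i, MvPolynomial.aeval f (p i) = 0 := fun i => (hfG _ (hp i)).2
    fun v hv hP => (hP v hv rfl).1 i
  have hq : ∀ j, ∃ d, (one1 n j).IsHomogeneous d := fun j => ⟨0, MvPolynomial.isHomogeneous_one _ _⟩
  obtain ⟨l0, hl0⟩ := Function.ne_iff.1 hf0
  have hne : ∀ P : MvPolynomial (Fin (m + 1)) ℂ, P ≠ 0 → ∃ η, MvPolynomial.eval η P ≠ 0 := by
    intro P hP
    by_contra h
    push Not at h
    exact hP (MvPolynomial.funext fun η => by rw [h η, map_zero])
  obtain ⟨t0, ht0⟩ := hne _ hl0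
  have h0 : (fun l => MvPolynomial.eval t0 (f l)) ≠ 0 := fun h => ht0 (congrFun h l0)
  have hx0 : CP.mk _ h0 ∈ QP p (one1 n) := (linked hp f hf t0 t0 h0 h0).1
  refine main_exp hp hq hs hc hx0 ?_ x
  rintro ⟨G, hG1, hG2, hG3⟩
  have hG0 : ∀ k, MvPolynomial.aeval f (G k) ≠ 0 := by
    intro k h
    obtain ⟨v, hv, hvX, hvG⟩ := hG2 k
    exact hvG ((hfG _ (hG1 k)).1 h v hv hvX)
  obtain ⟨t1, ht1⟩ := exists_avoid_space (fun k => Nat.casesOn k (f l0)
    fun k => MvPolynomial.aeval f (G k) : ℕ → MvPolynomial (Fin (m + 1)) ℂ) (by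
      rintro (_ | k)
      · exact hne _ hl0
      · exact hne _ (hG0 k))
  have h1 : (fun l => MvPolynomial.eval t1 (f l)) ≠ 0 := fun h => (ht1 0) (congrFun h l0)
  obtain ⟨k, hk⟩ := hG3 _ h1 (Relation.ReflTransGen.single
    (Or.inr (linked hp f hf t0 t1 h0 h1)))
  rw [eval_aeval] at hk
  exact ht1 (k + 1) hk

end main

end Pool.Agent.N762.UA
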